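import Pool.Agent.H14.RS.CSA1

/-! Module CSA of rs_modules: the core for exponents below one. -/

set_option autoImplicit false

open Complex MeasureTheory Set Filter Topology

namespace Pool.Agent.H14.RS

open Pool.Agent.H29.RS Pool.Agent.H29.RT Pool.Agent.H25.DP Pool.Agent.H25.DL Pool.Agent.H53.RT

/-- (CSA) the core for exponents below one. -/
theorem pf_CSA (h1 : T_SQD) (h2 : T_MSA) (h3 : T_MSB) (h4 : T_FMA) (h5 : T_GRS) : T_CSA := by
  intro ι _ f Y d t₀ α ε κ m hID hY hd hd2 hκ1 hα0 hα1 hRV hε hm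
  have hκ0 : 0 < κ := by linarith
  have hr1 : ∀ l, 1 ≤ (f l).r := fun l => by
    obtain ⟨a, ha, h⟩ := hID l
    rw [h]
    exact_mod_cast ha
  obtain ⟨x₁, x₂, D, D', δ, hx1, hx12, hx2d, hδ, hx2D, hD'κ, hdD, hDκ, hpos1, hpos2, hexp,
    hgap⟩ := paramsA hd hd2 hα0 hα1 hε
  have hx2 : 0 < x₂ := by linarith
  have hD'0 : 0 < D' := by linarith
  have hD0 : 0 < D := by linarith
  obtain ⟨κ₀, B, η, C₀, hκ₀, hph⟩ := hY.main
  obtain ⟨hbc, -⟩ := h5 ι f D hID hD0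
  obtain ⟨β₁, hβ₁, hSQD⟩ := h1 ι f Y d t₀ x₁ x₂ D D' m κ₀ B η C₀ hr1 hID hY hκ₀ hph hx1 hx12
    hx2d (by linarith) (by linarith) (by linarith) (by linarith) hm
  obtain ⟨C₃, hC₃, hFMA⟩ := h4 ι f D' (ε / 8) hID hD'0 (by linarith)
  refine ⟨β₁, hβ₁, fun β hβ C => ?_⟩
  have hβ0 : 0 < β := hβ₁.trans_le hβ
  obtain ⟨c₃, T₁, hc₃, hSQD⟩ := hSQD β hβ C
  obtain ⟨c₁, T₂, hc₁, hMSA⟩ := h2 ι f β D' x₁ x₂ δ κ hID hβ0 hx1 hx12 hδ hx2D hD'κ hκ1
  obtain ⟨c₂, T₃, hc₂, hMSB⟩ := h3 ι f β D d B η x₁ x₂ δ κ hID hβ0 hd hx1 hx12 hx2d hδ hdD hDκ hκ1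
  obtain ⟨Q, hQ⟩ : ∃ Q : ℝ, Q = Real.sqrt (2 * Real.pi) / β := ⟨_, rfl⟩
  have hQ0 : 0 < Q := by
    rw [hQ]
    have : 0 < Real.sqrt (2 * Real.pi) := Real.sqrt_pos.2 (by positivity)
    positivity
  have hfin := finalA f hbc hRV (a := x₂ - δ) (b := x₁ + δ) (c := d - x₁ + δ) (e := d - x₂ - δ)
    (K := Q) (c₁ := c₁) (c₂ := c₂) (c₃ := c₃) (c₄ := ε / 4) (A := x₂ - x₁) (E := 4 * C₃)
    hpos1 (by linarith) (by linarith) hpos2 hQ0 hc₁ hc₂ hc₃ (by linarith) hgap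
  obtain ⟨T₀, hT₀⟩ := eventually_atTop.1 (hfin.and ((eventually_ge_atTop T₁).and
    ((eventually_ge_atTop T₂).and ((eventually_ge_atTop T₃).and
      (((tendsto_rpow_atTop hκ0).eventually_ge_atTop 2).and (eventually_ge_atTop 3))))))
  refine ⟨T₀, fun T hT G hGm hG hclean => ?_⟩
  obtain ⟨hfi, hT1, hT2, hT3, hTκ2, hT33⟩ := hT₀ T hT
  have hT0 : 0 < T := by linarith
  have hT1' : 1 ≤ T := by linarith
  have hL0 : 0 < Real.log T := Real.log_pos (by linarith)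
  have hTκ : T ^ κ ≤ T := by
    calc T ^ κ ≤ T ^ (1 : ℝ) := Real.rpow_le_rpow_of_exponent_le hT1' hκ1
      _ = T := Real.rpow_one T
  by_contra hcon
  push Not at hcon
  obtain ⟨H, hH⟩ : ∃ H : ℝ, H = T + T ^ κ / 4 := ⟨_, rfl⟩
  obtain ⟨V, hV⟩ : ∃ V : ℝ, V = T ^ κ / 2 := ⟨_, rfl⟩
  have hHV : T + 3 * T ^ κ / 4 = H + V := by rw [hH, hV]; ring
  rw [hHV, ← hH] at hG hcon
  have hTH : T ≤ H := by rw [hH]; linarith
  have hHV2 : H + V ≤ 2 * T := by rw [hH, hV]; linarith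
  have hV1 : 1 ≤ V := by rw [hV]; linarith
  have hV0 : 0 < V := by linarith
  have hTV : T ^ κ / 4 ≤ V := by rw [hV]; linarith
  have hsub : Icc H (H + V) ⊆ Icc T (2 * T) := Icc_subset_Icc hTH hHV2
  have hx12' : x₁ * Real.log T ≤ x₂ * Real.log T :=
    mul_le_mul_of_nonneg_right hx12.le hL0.le
  have hEm : MeasurableSet (Icc H (H + V) \ G) := measurableSet_Icc.diff hGm
  have hEs : Icc H (H + V) \ G ⊆ Icc H (H + V) := sdiff_subset
  -- the left side over the bad set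
  have hbad : ∀ ξ : ℝ, ∫ u in Icc H (H + V) \ G, ‖AL f β D' T ξ u‖ ^ 2 ≤
      V * (4 * C₃ * T ^ (-(ε / 4))) := by
    intro ξ
    refine (hFMA β hβ0 T hT1' ξ H V hV1 _ hEm hEs).trans ?_
    obtain ⟨M, hM⟩ : ∃ M : ℝ, M = max κ (2 * D') := ⟨_, rfl⟩
    have e1 : volume.real (Icc H (H + V) \ G) ^ (1 / 2 : ℝ) ≤
        T ^ ((min κ (4 * κ - 2 * d) - ε) / 2) := by
      calc volume.real (Icc H (H + V) \ G) ^ (1 / 2 : ℝ) ≤
            (T ^ (min κ (4 * κ - 2 * d) - ε)) ^ (1 / 2 : ℝ) :=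
            Real.rpow_le_rpow measureReal_nonneg hcon.le (by norm_num)
        _ = _ := by
            rw [← Real.rpow_mul hT0.le]
            congr 1
            ring
    have e2 : (V + T ^ (2 * D')) ^ (1 / 2 : ℝ) ≤ 2 * T ^ (M / 2) := by
      have k1 : V + T ^ (2 * D') ≤ 4 * T ^ M := by
        have k2 : T ^ κ ≤ T ^ M :=
          Real.rpow_le_rpow_of_exponent_le hT1' (by rw [hM]; exact le_max_left _ _)
        have k3 : T ^ (2 * D') ≤ T ^ M :=
          Real.rpow_le_rpow_of_exponent_le hT1' (by rw [hM]; exact le_max_right _ _)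
        have k4 : 0 < T ^ M := Real.rpow_pos_of_pos hT0 _
        rw [hV]
        linarith
      calc (V + T ^ (2 * D')) ^ (1 / 2 : ℝ) ≤ (4 * T ^ M) ^ (1 / 2 : ℝ) := by
            refine Real.rpow_le_rpow (by positivity) k1 (by norm_num)
        _ = 2 * T ^ (M / 2) := by
            rw [Real.mul_rpow (by norm_num) (by positivity), ← Real.rpow_mul hT0.le]
            congr 1
            · rw [show (4 : ℝ) = 2 ^ (2 : ℝ) by norm_num, ← Real.rpow_mul (by norm_num)]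
              norm_num
            · congr 1
              ring
    calc C₃ * T ^ (ε / 8) * volume.real (Icc H (H + V) \ G) ^ (1 / 2 : ℝ) *
          (V + T ^ (2 * D')) ^ (1 / 2 : ℝ) ≤
          C₃ * T ^ (ε / 8) * T ^ ((min κ (4 * κ - 2 * d) - ε) / 2) * (2 * T ^ (M / 2)) := by
          gcongr
      _ = 2 * C₃ * T ^ (ε / 8 + (min κ (4 * κ - 2 * d) - ε) / 2 + M / 2) := by
          rw [Real.rpow_add hT0, Real.rpow_add hT0]
          ring
      _ ≤ 2 * C₃ * T ^ (κ + -(ε / 4)) := by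
          refine mul_le_mul_of_nonneg_left ?_ (by positivity)
          refine Real.rpow_le_rpow_of_exponent_le hT1' ?_
          rw [hM]
          linarith
      _ = V * (4 * C₃ * T ^ (-(ε / 4))) := by
          rw [Real.rpow_add hT0, hV]
          ring
  -- the comparison
  have hmain : (∫ ξ in (x₁ * Real.log T)..(x₂ * Real.log T), ∫ u in H..(H + V),
      ‖AL f β D' T ξ u‖ ^ 2) ≤
      (∫ ξ in (x₁ * Real.log T)..(x₂ * Real.log T), ∫ u in H..(H + V),
        ‖BR f β D T d B η ξ u‖ ^ 2) + (x₂ * Real.log T - x₁ * Real.log T) *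
        (T ^ (-c₃) * (H + V - H) + V * (4 * C₃ * T ^ (-(ε / 4)))) := by
    have e3 : (∫ ξ in (x₁ * Real.log T)..(x₂ * Real.log T), ∫ u in H..(H + V),
        ‖BR f β D T d B η ξ u‖ ^ 2) = ∫ ξ in (x₁ * Real.log T)..(x₂ * Real.log T),
        ∫ u in H..(H + V), ‖BR f β D T d B η ξ (max u 1)‖ ^ 2 := by
      refine intervalIntegral.integral_congr fun ξ _ => ?_
      refine intervalIntegral.integral_congr fun u hu => ?_
      rw [uIcc_of_le (by linarith)] at hu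
      have : max u 1 = u := max_eq_left (by linarith [hu.1])
      simp only [this]
    rw [e3]
    refine doubleA (P := fun ξ u => AL f β D' T ξ u)
      (Q := fun ξ u => BR f β D T d B η ξ (max u 1)) (by linarith) hx12' (by positivity)
      (continuous_AL f β D' T) (continuous_BR f β D T d B η) hGm hG ?_ hbad
    intro u hu ξ hξ
    have hu1 : max u 1 = u := max_eq_left (by linarith [(hG hu).1])
    simp only [hu1]
    have k1 := hSQD T hT1 u (hsub (hG hu)) (hclean u hu) ξ hξ.1 hξ.2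
    have k2 := (abs_le.1 k1).2
    linarith
  have hlow := (hMSA T hT2 H V hTH hTV hHV2).1
  have hup := (hMSB T hT3 H V hTH hTV hHV2).2
  rw [← hQ] at hlow hup
  have h9 := mul_lt_mul_of_pos_left hfi hV0
  have e4 : (x₂ * Real.log T - x₁ * Real.log T) *
        (T ^ (-c₃) * (H + V - H) + V * (4 * C₃ * T ^ (-(ε / 4)))) =
      V * ((x₂ - x₁) * Real.log T * (T ^ (-c₃) + 4 * C₃ * T ^ (-(ε / 4)))) := by ring
  rw [e4] at hmain
  linarith

end Pool.Agent.H14.RS
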