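import Pool.Agent.H29.RS.Targets
import Pool.Agent.H53.RT.COSa
import Pool.Agent.H53.RT.COSb

/-! Module CSA of rs_modules: parameters, limits, comparison of double integrals. -/

set_option autoImplicit false

open Complex MeasureTheory Set Filter Topology

namespace Pool.Agent.H14.RS

open Pool.Agent.H29.RS Pool.Agent.H29.RT Pool.Agent.H25.DP Pool.Agent.H25.DL Pool.Agent.H53.RT

/-- the parameters -/
lemma paramsA {d α ε κ : ℝ} (hd : 0 < d) (hd2 : d < 2 * κ) (h0 : 0 < α) (h1 : α < 1)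
    (hε : 0 < ε) : ∃ x₁ x₂ D D' δ : ℝ, 0 < x₁ ∧ x₁ < x₂ ∧ x₂ < d ∧ 0 < δ ∧ x₂ + δ < D' ∧
      D' < κ ∧ d - x₁ + δ < D ∧ D < κ ∧ 0 < x₂ - δ ∧ 0 < d - x₂ - δ ∧
      (min κ (4 * κ - 2 * d) - ε) / 2 + max κ (2 * D') / 2 ≤ κ - 3 * ε / 8 ∧
      (d - x₁ + δ) ^ α - (d - x₂ - δ) ^ α < (x₂ - δ) ^ α - (x₁ + δ) ^ α := by
  obtain ⟨x₀, hx₀⟩ : ∃ x : ℝ, x = max (d - κ) 0 := ⟨_, rfl⟩
  have hx0 : 0 ≤ x₀ := by rw [hx₀]; exact le_max_right _ _
  have hx0d : d - κ ≤ x₀ := by rw [hx₀]; exact le_max_left _ _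
  have hx0h : x₀ < d / 2 := by rw [hx₀]; exact max_lt (by linarith) (by linarith)
  have hx01 : x₀ < κ := by linarith
  obtain ⟨k, hk⟩ : ∃ k : ℝ, k = min ((d / 2 - x₀) / 4) (min ((κ - x₀) / 6) (ε / 40)) := ⟨_, rfl⟩
  have hk0 : 0 < k := by
    rw [hk]
    exact lt_min (by linarith) (lt_min (by linarith) (by linarith))
  have hk1 : k ≤ (d / 2 - x₀) / 4 := by rw [hk]; exact min_le_left _ _
  have hk2 : k ≤ (κ - x₀) / 6 := by rw [hk]; exact (min_le_right _ _).trans (min_le_left _ _)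
  have hk4 : k ≤ ε / 40 := by rw [hk]; exact (min_le_right _ _).trans (min_le_right _ _)
  have hgap := concave_gap (d := d) h0 h1 (x₁ := x₀ + 2 * k) (x₂ := x₀ + 3 * k) (by linarith)
    (by linarith) (by linarith)
  have hcont : Continuous fun s : ℝ => (x₀ + 3 * k - s) ^ α - (x₀ + 2 * k + s) ^ α -
      ((d - (x₀ + 2 * k) + s) ^ α - (d - (x₀ + 3 * k) - s) ^ α) := by
    have hr : ∀ g : ℝ → ℝ, Continuous g → Continuous fun s => g s ^ α := fun g hg =>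
      hg.rpow_const fun _ => Or.inr h0.le
    have c1 := hr (fun s => x₀ + 3 * k - s) (by fun_prop)
    have c2 := hr (fun s => x₀ + 2 * k + s) (by fun_prop)
    have c3 := hr (fun s => d - (x₀ + 2 * k) + s) (by fun_prop)
    have c4 := hr (fun s => d - (x₀ + 3 * k) - s) (by fun_prop)
    exact (c1.sub c2).sub (c3.sub c4)
  have h3 : ∀ᶠ s : ℝ in 𝓝[>] 0, 0 < (x₀ + 3 * k - s) ^ α - (x₀ + 2 * k + s) ^ α -
      ((d - (x₀ + 2 * k) + s) ^ α - (d - (x₀ + 3 * k) - s) ^ α) := by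
    have h4 : ∀ᶠ s : ℝ in 𝓝 0, 0 < (x₀ + 3 * k - s) ^ α - (x₀ + 2 * k + s) ^ α -
      ((d - (x₀ + 2 * k) + s) ^ α - (d - (x₀ + 3 * k) - s) ^ α) := by
      refine (hcont.tendsto 0).eventually_const_lt ?_
      simp only [sub_zero, add_zero]
      linarith
    exact h4.filter_mono nhdsWithin_le_nhds
  have h5 : ∀ᶠ s : ℝ in 𝓝[>] 0, s < k / 2 := by
    have : ∀ᶠ s : ℝ in 𝓝 0, s < k / 2 := eventually_lt_nhds (by linarith)
    exact this.filter_mono nhdsWithin_le_nhds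
  have h6 : ∀ᶠ s : ℝ in 𝓝[>] 0, 0 < s := eventually_mem_nhdsWithin
  obtain ⟨s, hs1, hs2, hs3⟩ := (h3.and (h5.and h6)).exists
  refine ⟨x₀ + 2 * k, x₀ + 3 * k, κ - k / 2, x₀ + 5 * k, s,
    by linarith, by linarith, by linarith, hs3, by linarith, by linarith, by linarith,
    by linarith, by linarith, by linarith, ?_, by linarith⟩
  have h7 : min κ (4 * κ - 2 * d) + max κ (2 * (x₀ + 5 * k)) ≤ 2 * κ + 10 * k := by
    rcases le_total κ (2 * (x₀ + 5 * k)) with h | h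
    · rw [max_eq_right h]
      rcases le_total (d - κ) 0 with h8 | h8
      · have h9 : x₀ = 0 := by rw [hx₀]; exact max_eq_right h8
        have := min_le_left κ (4 * κ - 2 * d)
        linarith
      · have h9 : x₀ = d - κ := by rw [hx₀]; exact max_eq_left h8
        have := min_le_right κ (4 * κ - 2 * d)
        linarith
    · rw [max_eq_left h]
      have := min_le_left κ (4 * κ - 2 * d)
      linarith
  linarith

variable {ι : Type} [Fintype ι]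

lemma one_le_E2 (f : ι → Fac) (h : bc f 1 = 1) {y : ℝ} (hy : 1 ≤ y) : 1 ≤ E2 f y := by
  unfold E2
  have h1 : 1 ∈ Finset.Icc 1 ⌊y⌋₊ := by
    rw [Finset.mem_Icc]
    exact ⟨le_rfl, Nat.le_floor (by exact_mod_cast hy)⟩
  have h2 := Finset.single_le_sum (f := fun k : ℕ => ‖bc f k‖ ^ 2)
    (fun k _ => by positivity) h1
  simp only [h, norm_one, one_pow] at h2
  exact h2

/-- the final comparison for large `T` -/
lemma finalA (f : ι → Fac) (hbc : bc f 1 = 1) {α : ℝ} (hRV : RV2 f α)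
    {a b c e K c₁ c₂ c₃ c₄ A E : ℝ} (ha : 0 < a) (hb : 0 < b) (hc : 0 < c) (he : 0 < e)
    (hK : 0 < K) (hc1 : 0 < c₁) (hc2 : 0 < c₂) (hc3 : 0 < c₃) (hc4 : 0 < c₄)
    (hgap : c ^ α - e ^ α < a ^ α - b ^ α) :
    ∀ᶠ T : ℝ in atTop, T ^ (-c₁) + T ^ (-c₂) + A * Real.log T * (T ^ (-c₃) + E * T ^ (-c₄)) <
      K * ((E2 f (T ^ a) - E2 f (T ^ b)) - (E2 f (T ^ c) - E2 f (T ^ e))) := by
  obtain ⟨g, hg⟩ : ∃ g : ℝ, g = (a ^ α - b ^ α) - (c ^ α - e ^ α) := ⟨_, rfl⟩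
  have hg0 : 0 < g := by rw [hg]; linarith
  have h1 : Tendsto (fun T : ℝ => (E2 f (T ^ a) / E2 f T - E2 f (T ^ b) / E2 f T) -
      (E2 f (T ^ c) / E2 f T - E2 f (T ^ e) / E2 f T)) atTop (𝓝 g) := by
    rw [hg]
    exact ((hRV a ha).sub (hRV b hb)).sub ((hRV c hc).sub (hRV e he))
  have h2 := h1.eventually_const_lt (show g / 2 < g by linarith)
  have hp : ∀ x : ℝ, 0 < x → Tendsto (fun T : ℝ => T ^ (-x)) atTop (𝓝 0) := fun x hx =>
    tendsto_rpow_neg_atTop hx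
  have hl : ∀ x : ℝ, 0 < x → Tendsto (fun T : ℝ => Real.log T * T ^ (-x)) atTop (𝓝 0) := by
    intro x hx
    have h3 := (isLittleO_log_rpow_atTop hx).tendsto_div_nhds_zero
    refine h3.congr' ?_
    filter_upwards [eventually_gt_atTop (0 : ℝ)] with T hT
    rw [Real.rpow_neg hT.le, div_eq_mul_inv]
  have h4 : Tendsto (fun T : ℝ => T ^ (-c₁) + T ^ (-c₂) + (A * (Real.log T * T ^ (-c₃)) +
      A * E * (Real.log T * T ^ (-c₄)))) atTop (𝓝 0) := by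
    have := ((hp c₁ hc1).add (hp c₂ hc2)).add (((hl c₃ hc3).const_mul A).add
      ((hl c₄ hc4).const_mul (A * E)))
    simpa using this
  have h5 := h4.eventually_lt_const (show 0 < K * (g / 2) by positivity)
  filter_upwards [h2, h5, eventually_ge_atTop (1 : ℝ)] with T hT2 hT5 hT1
  have hEn := one_le_E2 f hbc hT1
  have hEn0 : 0 < E2 f T := by linarith
  have h8 : K * (g / 2) ≤ K * ((E2 f (T ^ a) - E2 f (T ^ b)) -
      (E2 f (T ^ c) - E2 f (T ^ e))) := by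
    have h9 : (E2 f (T ^ a) - E2 f (T ^ b)) - (E2 f (T ^ c) - E2 f (T ^ e)) =
        E2 f T * ((E2 f (T ^ a) / E2 f T - E2 f (T ^ b) / E2 f T) -
      (E2 f (T ^ c) / E2 f T - E2 f (T ^ e) / E2 f T)) := by
      field_simp
    rw [h9]
    refine mul_le_mul_of_nonneg_left ?_ hK.le
    have h11 : g / 2 ≤ 1 * ((E2 f (T ^ a) / E2 f T - E2 f (T ^ b) / E2 f T) -
      (E2 f (T ^ c) / E2 f T - E2 f (T ^ e) / E2 f T)) := by linarith
    refine h11.trans (mul_le_mul_of_nonneg_right hEn ?_)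
    linarith
  have h12 : T ^ (-c₁) + T ^ (-c₂) + A * Real.log T * (T ^ (-c₃) + E * T ^ (-c₄)) =
    T ^ (-c₁) + T ^ (-c₂) + (A * (Real.log T * T ^ (-c₃)) + A * E * (Real.log T * T ^ (-c₄))) := by
    ring
  rw [h12]
  linarith

/-- the comparison on one window, for one value of `ξ` -/
lemma windowA {a b δ A : ℝ} (hab : a ≤ b) (hδ : 0 ≤ δ) {P Q : ℝ → ℂ}
    (hP : ContinuousOn P (Icc a b)) (hQ : ContinuousOn Q (Icc a b)) {G : Set ℝ}
    (hGm : MeasurableSet G) (hG : G ⊆ Icc a b)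
    (h2 : ∀ u ∈ G, ‖P u‖ ^ 2 ≤ ‖Q u‖ ^ 2 + δ) (h3 : ∫ u in Icc a b \ G, ‖P u‖ ^ 2 ≤ A) :
    ∫ u in a..b, ‖P u‖ ^ 2 ≤ (∫ u in a..b, ‖Q u‖ ^ 2) + (δ * (b - a) + A) := by
  have hEs : Icc a b \ G ⊆ Icc a b := sdiff_subset
  have hEm : MeasurableSet (Icc a b \ G) := measurableSet_Icc.diff hGm
  have c1 : ContinuousOn (fun u => ‖P u‖ ^ 2) (Icc a b) := hP.norm.pow 2
  have c2 : ContinuousOn (fun u => ‖Q u‖ ^ 2) (Icc a b) := hQ.norm.pow 2
  have c3 : ContinuousOn (fun u => ‖Q u‖ ^ 2 + δ) (Icc a b) := c2.add continuousOn_const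
  have i1 := c1.integrableOn_Icc (μ := volume)
  have i2 := c2.integrableOn_Icc (μ := volume)
  have i3 := c3.integrableOn_Icc (μ := volume)
  rw [intervalIntegral.integral_of_le hab, ← integral_Icc_eq_integral_Ioc,
    intervalIntegral.integral_of_le hab, ← integral_Icc_eq_integral_Ioc]
  have e1 : ∫ u in Icc a b, ‖P u‖ ^ 2 = (∫ u in G, ‖P u‖ ^ 2) +
      ∫ u in Icc a b \ G, ‖P u‖ ^ 2 := by
    have h7 : Icc a b = G ∪ (Icc a b \ G) := (union_sdiff_cancel hG).symm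
    nth_rw 1 [h7]
    exact setIntegral_union disjoint_sdiff_right hEm (i1.mono_set hG) (i1.mono_set hEs)
  have b1 : ∫ u in G, ‖P u‖ ^ 2 ≤ ∫ u in G, (‖Q u‖ ^ 2 + δ) :=
    setIntegral_mono_on (i1.mono_set hG) (i3.mono_set hG) hGm h2
  have b2 : ∫ u in G, (‖Q u‖ ^ 2 + δ) ≤ ∫ u in Icc a b, (‖Q u‖ ^ 2 + δ) := by
    refine setIntegral_mono_set i3 ?_ (LE.le.eventuallyLE hG)
    exact Eventually.of_forall fun u => by
      change (0 : ℝ) ≤ ‖Q u‖ ^ 2 + δ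
      positivity
  have b3 : ∫ u in Icc a b, (‖Q u‖ ^ 2 + δ) = (∫ u in Icc a b, ‖Q u‖ ^ 2) + δ * (b - a) := by
    rw [integral_add i2 (integrableOn_const (by
      rw [Real.volume_Icc]; exact ENNReal.ofReal_ne_top)),
      setIntegral_const, Real.volume_real_Icc_of_le hab, smul_eq_mul]
    ring
  rw [e1]
  linarith

/-- the comparison of the double integrals -/
lemma doubleA {a b x₁ x₂ δ A : ℝ} (hab : a ≤ b) (hx : x₁ ≤ x₂) (hδ : 0 ≤ δ)
    {P Q : ℝ → ℝ → ℂ} (hP : Continuous fun p : ℝ × ℝ => P p.1 p.2)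
    (hQ : Continuous fun p : ℝ × ℝ => Q p.1 p.2) {G : Set ℝ} (hGm : MeasurableSet G)
    (hG : G ⊆ Icc a b) (h2 : ∀ u ∈ G, ∀ ξ ∈ Icc x₁ x₂, ‖P ξ u‖ ^ 2 ≤ ‖Q ξ u‖ ^ 2 + δ)
    (h3 : ∀ ξ : ℝ, ∫ u in Icc a b \ G, ‖P ξ u‖ ^ 2 ≤ A) :
    (∫ ξ in x₁..x₂, ∫ u in a..b, ‖P ξ u‖ ^ 2) ≤
      (∫ ξ in x₁..x₂, ∫ u in a..b, ‖Q ξ u‖ ^ 2) + (x₂ - x₁) * (δ * (b - a) + A) := by
  have cA : Continuous fun ξ : ℝ => ∫ u in a..b, ‖P ξ u‖ ^ 2 := by
    apply intervalIntegral.continuous_parametric_intervalIntegral_of_continuous'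
    exact hP.norm.pow 2
  have cB : Continuous fun ξ : ℝ => ∫ u in a..b, ‖Q ξ u‖ ^ 2 := by
    apply intervalIntegral.continuous_parametric_intervalIntegral_of_continuous'
    exact hQ.norm.pow 2
  have key : ∀ ξ ∈ Icc x₁ x₂, (∫ u in a..b, ‖P ξ u‖ ^ 2) ≤
      (∫ u in a..b, ‖Q ξ u‖ ^ 2) + (δ * (b - a) + A) := by
    intro ξ hξ
    have c1 : Continuous fun u : ℝ => P ξ u := hP.comp (Continuous.prodMk_right ξ)
    have c2 : Continuous fun u : ℝ => Q ξ u := hQ.comp (Continuous.prodMk_right ξ)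
    exact windowA hab hδ c1.continuousOn c2.continuousOn hGm hG
      (fun u hu => h2 u hu ξ hξ) (h3 ξ)
  have i1 := cA.intervalIntegrable (μ := volume) x₁ x₂
  have i2 := cB.intervalIntegrable (μ := volume) x₁ x₂
  have h5 := intervalIntegral.integral_mono_on hx i1 (i2.add intervalIntegrable_const) key
  rw [intervalIntegral.integral_add i2 intervalIntegrable_const,
    intervalIntegral.integral_const, smul_eq_mul] at h5
  exact h5

end Pool.Agent.H14.RS
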