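import Pool.Agent.H29.RS.Targets
import Pool.Agent.H14.RT.FAR

/-! Module GA of rs_modules: the theorem for Artin L-functions in short intervals. -/

set_option autoImplicit false

open Complex MeasureTheory Set Filter Topology

namespace Pool.Agent.H14.RS

open Pool.Agent.H29.RS Pool.Agent.H29.RT Pool.Agent.H25.DP Pool.Agent.H25.DL Pool.Agent.H25.MZ
open Pool.Agent.H14.RT

theorem pf_GA (h1 : T_FIW) (h2 : T_RVS) (h3 : T_MNA) (h4 : Pool.Agent.H25.DP.T_AA2) : T_GA := by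
  intro R Λ m κ ε ρ hRat hArt hd hd2 hκ hip hε hρ1 hρ2
  obtain ⟨L, hLn, hLtr, hLord⟩ := h4 R Λ hRat hArt
  have hdR : (1 : ℝ) ≤ R.dim := by exact_mod_cast hd
  have hm : 1 ≤ m := by
    rcases Nat.eq_zero_or_pos m with h | h
    · rw [h] at hd2
      simp only [Nat.cast_zero, mul_zero] at hd2
      linarith
    · exact h
  have hm0 : (0 : ℝ) < m := by exact_mod_cast hm
  have hFd : (F1 L).d = R.dim := by rw [F1_d, hLn]
  have hα0 : 0 < ip R / (m : ℝ) ^ 2 := div_pos (ip_pos R hd) (by positivity)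
  have hα1 : ip R / (m : ℝ) ^ 2 ≠ 1 := by
    intro h
    rw [div_eq_one_iff_eq (by positivity)] at h
    exact hip h
  have hsum : ∑ v ∈ Finset.Icc 1 1, (fun _ : ℕ => ip R / (m : ℝ) ^ 2) v = ip R / (m : ℝ) ^ 2 := by
    simp
  have hRV : RV2 (rf (F1 L) m) (ip R / (m : ℝ) ^ 2) := by
    have h := h2 (F1 L) m 1 (fun _ => ip R / (m : ℝ) ^ 2) hm
      (fun i => ⟨1, le_rfl, le_rfl, by change (1 : ℝ) = ((1 : ℕ) : ℝ); simp⟩) (fun j => j.elim) ?_
      (by rw [hsum]; exact hα0)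
    · rw [hsum] at h
      exact h
    intro v hv1 hv2
    have hv : v = 1 := le_antisymm hv2 hv1
    subst hv
    refine h3 R m _ hm hRat ?_
    intro p
    have e1 : (∑ i : (F1 L).I, if ((F1 L).p i).r = ((1 : ℕ) : ℝ) then
        ((p : ℕ) : ℂ) ^ (-((((F1 L).p i).τ : ℝ) * I) : ℂ) *
        ∑ k, ((F1 L).p i).L.h k p else 0) = LinearMap.trace ℂ R.V (R.fr p) := by
      change (∑ i : Unit, if (1 : ℝ) = ((1 : ℕ) : ℝ) then
        ((p : ℕ) : ℂ) ^ (-(((0 : ℝ) : ℂ) * I) : ℂ) * ∑ k, L.h k p else 0) = _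
      rw [hLtr p]
      simp
    have e2 : (∑ j : (F1 L).J, if ((F1 L).q j).r = ((1 : ℕ) : ℝ) then
        ((p : ℕ) : ℂ) ^ (-((((F1 L).q j).τ : ℝ) * I) : ℂ) *
        ∑ k, ((F1 L).q j).L.h k p else 0) = 0 := by
      change (∑ j : Empty, _) = _
      simp
    show ‖(_ - _) / _‖ ^ 2 = _
    rw [e1, e2, sub_zero]
  obtain ⟨T₀, hT₀⟩ := h1 (F1 L) m (ip R / (m : ℝ) ^ 2) κ ε ρ
    (fun i => ⟨1, le_rfl, by change (1 : ℝ) = ((1 : ℕ) : ℝ); simp⟩) (fun j => j.elim) hm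
    (by rw [hFd]; linarith) (by rw [hFd]; exact hd2) hκ hα0 hα1 hRV hε
    (fun h => by rw [hFd]; exact hρ1 ((div_lt_one (by positivity)).1 h))
    (fun h => by rw [hFd]; exact hρ2 ((one_lt_div (by positivity)).1 h))
  refine ⟨max T₀ 1, fun T hT => ?_⟩
  obtain ⟨Z, hZ, hz⟩ := hT₀ T ((le_max_left _ _).trans hT)
  refine ⟨Z, hZ, fun z hzZ => ?_⟩
  obtain ⟨g1, g2, g3⟩ := hz z hzZ
  refine ⟨g1, g2, ?_⟩
  have hT1 : 1 ≤ T := (le_max_right _ _).trans hT
  have hzp : 0 < z.im := by linarith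
  intro j hj
  unfold ExcM at g3
  have g4 := g3 j
  rw [F1_N, F1_M] at g4
  apply g4
  obtain ⟨k1, k2, k3⟩ := hLord z hzp
  have a1 : AnalyticAt ℂ L.num z := by
    have ho : IsOpen {s : ℂ | 0 < s.im} := isOpen_lt continuous_const Complex.continuous_im
    exact DifferentiableOn.analyticAt (s := {s : ℂ | 0 < s.im})
      (fun s hs => ((L.diff s hs).1).differentiableWithinAt) (ho.mem_nhds hzp)
  have a2 : AnalyticAt ℂ L.den z := by
    have ho : IsOpen {s : ℂ | 0 < s.im} := isOpen_lt continuous_const Complex.continuous_im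
    exact DifferentiableOn.analyticAt (s := {s : ℂ | 0 < s.im})
      (fun s hs => ((L.diff s hs).2).differentiableWithinAt) (ho.mem_nhds hzp)
  obtain ⟨a, ha⟩ := ENat.ne_top_iff_exists.1 k2
  obtain ⟨b, hb⟩ := ENat.ne_top_iff_exists.1 k1
  rw [hj, a1.meromorphicOrderAt_eq, a2.meromorphicOrderAt_eq, ← ha, ← hb, ENat.map_natCast,
    ENat.map_natCast] at k3
  have h5 : ((m * j : ℕ) : ℤ) + (b : ℤ) = (a : ℤ) := by exact_mod_cast k3
  rw [← ha, ← hb]
  have h6 : a = b + m * j := by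
    have : m * j + b = a := by exact_mod_cast h5
    omega
  rw [h6]
  push_cast
  rfl

end Pool.Agent.H14.RS
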