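import Pool.Agent.H14.RS.MSB2

/-! Module MSB of rs_modules: the mean square of the right side. -/

set_option autoImplicit false

open Complex MeasureTheory Set Filter Topology

namespace Pool.Agent.H14.RS

open Pool.Agent.H29.RS Pool.Agent.H29.RT Pool.Agent.H25.DP Pool.Agent.H25.DL
open Pool.Agent.H33.RT

theorem pf_MSB (h : T_GRS) (hMV : T_MVT) : T_MSB := by
  intro ι _ f β D d B η x₁ x₂ δ κ hID hβ hd hx₁ hx₁₂ hx₂ hδ hD hDκ hκ
  have hD0 : 0 < D := by linarith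
  obtain ⟨-, hA, ⟨K₀, hK₀, hB⟩, hC, hE, -⟩ := h ι f D hID hD0
  obtain ⟨C₂, hC₂, hEb⟩ := hE ((κ - D) / 8) (by linarith)
  obtain ⟨C, hCpos, hmv⟩ := hMV
  obtain ⟨C₁, hC₁⟩ : ∃ C₁ : ℝ, C₁ = C * (1 + β * (d + |η|)) := ⟨_, rfl⟩
  have hC₁0 : 0 < C₁ := by rw [hC₁]; positivity
  obtain ⟨K, hK⟩ : ∃ K : ℝ, K = max K₀ 1 := ⟨_, rfl⟩
  have hK1 : 1 ≤ K := by rw [hK]; exact le_max_right _ _
  have hK₀K : K₀ ≤ K := by rw [hK]; exact le_max_left _ _
  obtain ⟨X, hX⟩ : ∃ X : ℝ, X = x₂ - x₁ := ⟨_, rfl⟩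
  have hX0 : 0 < X := by rw [hX]; linarith
  obtain ⟨G, hG⟩ : ∃ G : ℝ, G = 2 * Real.sqrt Real.pi / β := ⟨_, rfl⟩
  have hG0 : 0 < G := by
    rw [hG]
    have := Real.sqrt_pos.2 Real.pi_pos
    positivity
  have hb₀ : 0 < β ^ 2 * δ ^ 2 / 16 := by positivity
  obtain ⟨T₀, hT₀⟩ := eventually_atTop.1 (((numB D κ K C₁ C₂ X G (β ^ 2 * δ ^ 2 / 16) hD0 hDκ hκ
    hK1 hC₁0 hC₂ hX0 hG0 hb₀).and ((Je_far β d B η x₁ x₂ δ hd hδ).and
    (Je_mid β d B η x₁ x₂ δ hβ hd hδ hx₁₂))).and (eventually_ge_atTop 1))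
  refine ⟨(κ - D) / 4, T₀, by linarith, fun T hT H V hTH hTV hHV => ?_⟩
  obtain ⟨⟨hnum, hfar, hmid⟩, hT1⟩ := hT₀ T hT
  have hT0 : 0 < T := by linarith
  have hL0 : 0 ≤ Real.log T := Real.log_nonneg hT1
  have hTD : 1 ≤ T ^ D := Real.one_le_rpow hT1 hD0.le
  have hTk : 0 < T ^ κ := Real.rpow_pos_of_pos hT0 κ
  have hV0 : 0 ≤ V := by linarith
  have hH0 : 0 < H := by linarith
  obtain ⟨N, hN⟩ : ∃ N : ℕ, N = ⌊K * T ^ D⌋₊ := ⟨_, rfl⟩
  have hN1 : 1 ≤ N := by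
    rw [hN]
    refine Nat.le_floor ?_
    push_cast
    nlinarith
  have hNK : (N : ℝ) ≤ K * T ^ D := by
    rw [hN]
    exact Nat.floor_le (by positivity)
  obtain ⟨a, ha⟩ : ∃ a : ℕ → ℂ, a = bt f D T := ⟨_, rfl⟩
  obtain ⟨S, hS⟩ : ∃ S : ℝ, S = ∑ k ∈ Finset.Icc 1 N, ‖a k‖ ^ 2 := ⟨_, rfl⟩
  have hS0 : 0 ≤ S := by rw [hS]; exact Finset.sum_nonneg fun k _ => by positivity
  have hSb : S ≤ C₂ * (N : ℝ) ^ ((κ - D) / 8) := by
    rw [hS, ha]
    exact (hEb N hN1).2 T hT1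
  have hfin := hnum N S V hN1 hNK hS0 hSb hTV
  have hfar := hfar H V hTH hV0 hHV
  have hmid := hmid H V hTH hV0 hHV
  rw [← hG] at hmid
  obtain ⟨ξ₁, hξ₁⟩ : ∃ ξ₁ : ℝ, ξ₁ = x₁ * Real.log T := ⟨_, rfl⟩
  obtain ⟨ξ₂, hξ₂⟩ : ∃ ξ₂ : ℝ, ξ₂ = x₂ * Real.log T := ⟨_, rfl⟩
  have hξ : ξ₁ ≤ ξ₂ := by
    rw [hξ₁, hξ₂]
    exact mul_le_mul_of_nonneg_right hx₁₂.le hL0
  have hξX : ξ₂ - ξ₁ = X * Real.log T := by rw [hξ₁, hξ₂, hX]; ring
  rw [← hξ₁, ← hξ₂] at hfar hmid ⊢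
  obtain ⟨x, hx⟩ : ∃ x : ℝ, x = Real.exp (-(β ^ 2 * δ ^ 2 / 16 * Real.log T ^ 2)) := ⟨_, rfl⟩
  have hx0 : 0 < x := by rw [hx]; exact Real.exp_pos _
  rw [← hx] at hfin hfar hmid
  obtain ⟨Q, hQ⟩ : ∃ Q : ℝ, Q = Real.sqrt (2 * Real.pi) / β := ⟨_, rfl⟩
  have hQ0 : 0 ≤ Q := by rw [hQ]; positivity
  rw [← hQ] at hmid ⊢
  -- the mean square and the diagonal terms
  have hBR : ∀ ξ u, BR f β D T d B η ξ u = Dg β d B η N a ξ u := by
    intro ξ u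
    rw [ha]
    refine BR_eqB f β D T d B η ξ u K₀ (hB T hT1) hC N ?_
    rw [hN]
    exact Nat.floor_le_floor (mul_le_mul_of_nonneg_right hK₀K (by linarith))
  have hBR2 : ∀ ξ, ∫ u in H..(H + V), ‖BR f β D T d B η ξ u‖ ^ 2 =
      ∫ u in H..(H + V), ‖Dg β d B η N a ξ u‖ ^ 2 := by
    intro ξ
    refine intervalIntegral.integral_congr fun u _ => ?_
    rw [hBR]
  simp_rw [hBR2]
  obtain ⟨I₀, hI₀⟩ : ∃ I₀ : ℝ, I₀ = ∫ ξ in ξ₁..ξ₂, ∫ u in H..(H + V),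
    ‖Dg β d B η N a ξ u‖ ^ 2 := ⟨_, rfl⟩
  rw [← hI₀]
  obtain ⟨Ds, hDs⟩ : ∃ Ds : ℝ, Ds = ∑ k ∈ Finset.Icc 1 N, ‖a k‖ ^ 2 *
    ∫ ξ in ξ₁..ξ₂, Je β d B η H V (Real.log k + ξ) := ⟨_, rfl⟩
  have hclose : |I₀ - Ds| ≤ X * Real.log T * (C₁ * N * Real.log (N + 1) * S) := by
    have hc1 := Dg_cont β d B η H V hH0 hV0 N a
    have hc2 : ∀ k : ℕ, Continuous fun ξ => ‖a k‖ ^ 2 * Je β d B η H V (Real.log k + ξ) :=
      fun k => continuous_const.mul (Je_cont β d B η H V (Real.log k) hH0 hV0)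
    have hc3 : Continuous fun ξ => ∑ k ∈ Finset.Icc 1 N,
        ‖a k‖ ^ 2 * Je β d B η H V (Real.log k + ξ) := continuous_finsetSum _ fun k _ => hc2 k
    have e1 : I₀ - Ds = ∫ ξ in ξ₁..ξ₂, ((∫ u in H..(H + V), ‖Dg β d B η N a ξ u‖ ^ 2) -
        ∑ k ∈ Finset.Icc 1 N, ‖a k‖ ^ 2 * Je β d B η H V (Real.log k + ξ)) := by
      rw [intervalIntegral.integral_sub (hc1.intervalIntegrable _ _) (hc3.intervalIntegrable _ _),
        intervalIntegral.integral_finsetSum fun k _ => (hc2 k).intervalIntegrable _ _, hI₀, hDs]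
      congr 1
      refine Finset.sum_congr rfl fun k _ => ?_
      rw [intervalIntegral.integral_const_mul]
    rw [e1, ← Real.norm_eq_abs]
    have h1 := intervalIntegral.norm_integral_le_of_norm_le_const (a := ξ₁) (b := ξ₂)
      (f := fun ξ => (∫ u in H..(H + V), ‖Dg β d B η N a ξ u‖ ^ 2) -
        ∑ k ∈ Finset.Icc 1 N, ‖a k‖ ^ 2 * Je β d B η H V (Real.log k + ξ))
      (C := C₁ * N * Real.log (N + 1) * S) (fun ξ _ => by
        rw [Real.norm_eq_abs, hC₁, hS]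
        exact per_xi2 hmv β d B η T H V ξ hβ hd hT1 hTH hV0 hHV N hN1 a)
    rw [abs_of_nonneg (by linarith : 0 ≤ ξ₂ - ξ₁), hξX] at h1
    linarith
  have hnn : ∀ k : ℕ, 0 ≤ ∫ ξ in ξ₁..ξ₂, Je β d B η H V (Real.log k + ξ) := fun k =>
    intervalIntegral.integral_nonneg hξ fun ξ _ => Je_nonneg β d B η H V _ hV0
  constructor
  · -- lower bound
    obtain ⟨y, hy⟩ : ∃ y : ℝ, y = T ^ (d - x₂ + δ) := ⟨_, rfl⟩
    obtain ⟨Y, hY⟩ : ∃ Y : ℝ, Y = T ^ (d - x₁ - δ) := ⟨_, rfl⟩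
    rw [← hy, ← hY] at hmid ⊢
    have hY0 : 0 ≤ Y := by rw [hY]; positivity
    have hYD : Y ≤ T ^ D := by
      rw [hY]
      exact Real.rpow_le_rpow_of_exponent_le hT1 (by linarith)
    have hYN : ⌊Y⌋₊ ≤ N := by
      rw [hN]
      refine Nat.floor_le_floor (hYD.trans ?_)
      nlinarith
    have hDs1 : V * Q * (E2 f Y - E2 f y) - S * (V * (x * G)) ≤ Ds := by
      rcases le_or_gt y Y with hyY | hyY
      · rw [← E2_sub f y Y hyY]
        have h1 : ∑ k ∈ (Finset.Icc 1 ⌊Y⌋₊).filter (fun k => ⌊y⌋₊ < k), ‖bc f k‖ ^ 2 =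
            ∑ k ∈ (Finset.Icc 1 N).filter (fun k => ⌊y⌋₊ < k ∧ k ≤ ⌊Y⌋₊), ‖a k‖ ^ 2 := by
          refine Finset.sum_congr ?_ fun k hk => ?_
          · ext k
            simp only [Finset.mem_filter, Finset.mem_Icc]
            constructor
            · rintro ⟨⟨h1, h4⟩, h3⟩
              exact ⟨⟨h1, h4.trans hYN⟩, h3, h4⟩
            · rintro ⟨⟨h1, _⟩, h3, h4⟩
              exact ⟨⟨h1, h4⟩, h3⟩
          · simp only [Finset.mem_filter, Finset.mem_Icc] at hk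
            rw [ha, hA T hT1 k hk.1.1 (((Nat.le_floor_iff hY0).1 hk.2.2).trans hYD)]
        rw [h1]
        obtain ⟨S', hS'⟩ : ∃ S' : ℝ, S' = ∑ k ∈ (Finset.Icc 1 N).filter
          (fun k => ⌊y⌋₊ < k ∧ k ≤ ⌊Y⌋₊), ‖a k‖ ^ 2 := ⟨_, rfl⟩
        rw [← hS']
        have h2 : S' ≤ S := by
          rw [hS', hS]
          exact Finset.sum_le_sum_of_subset_of_nonneg (Finset.filter_subset _ _)
            fun k _ _ => by positivity
        have h3 : S' * (V * (Q - x * G)) ≤ Ds := by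
          rw [hS', hDs, Finset.sum_mul]
          refine (Finset.sum_le_sum (fun k hk => ?_)).trans
            (Finset.sum_le_sum_of_subset_of_nonneg (Finset.filter_subset
              (fun k => ⌊y⌋₊ < k ∧ k ≤ ⌊Y⌋₊) (Finset.Icc 1 N))
              fun k _ _ => mul_nonneg (by positivity) (hnn k))
          simp only [Finset.mem_filter, Finset.mem_Icc] at hk
          exact mul_le_mul_of_nonneg_left (hmid k hk.1.1 hk.2.1 hk.2.2) (by positivity)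
        have h4 : S' * (V * (x * G)) ≤ S * (V * (x * G)) :=
          mul_le_mul_of_nonneg_right h2 (by positivity)
        linarith
      · have h1 := E2_mono f Y y hyY.le
        have h2 : V * Q * (E2 f Y - E2 f y) ≤ 0 :=
          mul_nonpos_of_nonneg_of_nonpos (by positivity) (by linarith)
        have h3 : 0 ≤ Ds := by
          rw [hDs]
          exact Finset.sum_nonneg fun k _ => mul_nonneg (by positivity) (hnn k)
        have h4 : 0 ≤ S * (V * (x * G)) := by positivity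
        linarith
    have h5 := (abs_le.1 hclose).1
    have h6 : 0 ≤ S * (X * Real.log T * (V * x)) := by positivity
    linarith
  · -- upper bound
    obtain ⟨y, hy⟩ : ∃ y : ℝ, y = T ^ (d - x₂ - δ) := ⟨_, rfl⟩
    obtain ⟨Y, hY⟩ : ∃ Y : ℝ, Y = T ^ (d - x₁ + δ) := ⟨_, rfl⟩
    rw [← hy, ← hY] at hfar ⊢
    have hY0 : 0 ≤ Y := by rw [hY]; positivity
    have hyY : y ≤ Y := by
      rw [hy, hY]
      exact Real.rpow_le_rpow_of_exponent_le hT1 (by linarith)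
    have hYD : Y ≤ T ^ D := by
      rw [hY]
      exact Real.rpow_le_rpow_of_exponent_le hT1 hD.le
    have hYN : ⌊Y⌋₊ ≤ N := by
      rw [hN]
      refine Nat.floor_le_floor (hYD.trans ?_)
      nlinarith
    have hgen : ∀ k : ℕ, ∫ ξ in ξ₁..ξ₂, Je β d B η H V (Real.log k + ξ) ≤ V * Q := by
      intro k
      rw [hQ]
      exact Je_int_le β d B η H V (Real.log k) ξ₁ ξ₂ hβ hH0 hV0 hξ
    have hfarb : ∀ k : ℕ, 1 ≤ k → (k ≤ ⌊y⌋₊ ∨ ⌊Y⌋₊ < k) →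
        ∫ ξ in ξ₁..ξ₂, Je β d B η H V (Real.log k + ξ) ≤ X * Real.log T * (V * x) := by
      intro k hk hk2
      calc ∫ ξ in ξ₁..ξ₂, Je β d B η H V (Real.log k + ξ) ≤ ∫ ξ in ξ₁..ξ₂, V * x := by
            refine intervalIntegral.integral_mono_on hξ
              ((Je_cont β d B η H V (Real.log k) hH0 hV0).intervalIntegrable _ _) (by simp)
              fun ξ hξm => hfar k hk hk2 ξ hξm
        _ = X * Real.log T * (V * x) := by
            rw [intervalIntegral.integral_const, smul_eq_mul, hξX]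
    have hterm : ∀ k ∈ Finset.Icc 1 N,
        ‖a k‖ ^ 2 * ∫ ξ in ξ₁..ξ₂, Je β d B η H V (Real.log k + ξ) ≤
        (if ⌊y⌋₊ < k ∧ k ≤ ⌊Y⌋₊ then ‖bc f k‖ ^ 2 * (V * Q) else 0) +
          ‖a k‖ ^ 2 * (X * Real.log T * (V * x)) := by
      intro k hk
      rw [Finset.mem_Icc] at hk
      split_ifs with hm
      · have hkY : (k : ℝ) ≤ T ^ D := ((Nat.le_floor_iff hY0).1 hm.2).trans hYD
        rw [ha, hA T hT1 k hk.1 hkY]
        have h9 : ‖bc f k‖ ^ 2 * ∫ ξ in ξ₁..ξ₂, Je β d B η H V (Real.log k + ξ) ≤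
            ‖bc f k‖ ^ 2 * (V * Q) := mul_le_mul_of_nonneg_left (hgen k) (by positivity)
        have h10 : 0 ≤ ‖bc f k‖ ^ 2 * (X * Real.log T * (V * x)) := by positivity
        linarith
      · rw [zero_add]
        refine mul_le_mul_of_nonneg_left (hfarb k hk.1 ?_) (by positivity)
        by_contra hcon
        push Not at hcon
        exact hm hcon
    have hmain : Ds ≤ V * Q * (E2 f Y - E2 f y) + S * (X * Real.log T * (V * x)) := by
      rw [hDs]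
      refine (Finset.sum_le_sum hterm).trans (le_of_eq ?_)
      rw [Finset.sum_add_distrib, ← Finset.sum_mul, ← hS]
      congr 1
      rw [← Finset.sum_filter, ← Finset.sum_mul, mul_comm (V * Q), ← E2_sub f y Y hyY]
      congr 1
      refine Finset.sum_congr ?_ fun _ _ => rfl
      ext k
      simp only [Finset.mem_filter, Finset.mem_Icc]
      constructor
      · rintro ⟨⟨h1, _⟩, h3, h4⟩
        exact ⟨⟨h1, h4⟩, h3⟩
      · rintro ⟨⟨h1, h4⟩, h3⟩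
        exact ⟨⟨h1, h4.trans hYN⟩, h3, h4⟩
    have h5 := (abs_le.1 hclose).2
    have h6 : 0 ≤ S * (V * (x * G)) := by positivity
    linarith

end Pool.Agent.H14.RS
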