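import Pool.Agent.H29.RS.Targets
import Pool.Agent.H33.RT.Ms1

/-! Module MSB of rs_modules: analytic part. -/

set_option autoImplicit false

open Complex MeasureTheory Set Filter Topology

namespace Pool.Agent.H14.RS

open Pool.Agent.H29.RS Pool.Agent.H29.RT Pool.Agent.H25.DP Pool.Agent.H25.DL
open Pool.Agent.H33.RT

/-- the diagonal integral -/
noncomputable def Je (β d B η H V l : ℝ) : ℝ :=
  ∫ u in H..(H + V), Real.exp (-(β ^ 2 * (cu d B η u - l) ^ 2 / 2))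

/-- the Dirichlet polynomial with Gaussian weights -/
noncomputable def Dg (β d B η : ℝ) (N : ℕ) (a : ℕ → ℂ) (ξ u : ℝ) : ℂ :=
  ∑ k ∈ Finset.Icc 1 N, a k * cexp ((-(u * Real.log k) : ℝ) * I) *
    (Real.exp (-(β ^ 2 * (cu d B η u - Real.log k - ξ) ^ 2 / 4)) : ℂ)

lemma contOn_gauss (β d B η H V l : ℝ) (hH : 0 < H) :
    ContinuousOn (fun u => Real.exp (-(β ^ 2 * (cu d B η u - l) ^ 2 / 2))) (Icc H (H + V)) := by
  have hcc := (continuousOn_cu d B η).mono (show Icc H (H + V) ⊆ Ioi (0 : ℝ) from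
    fun u hu => hH.trans_le hu.1)
  refine Real.continuous_exp.comp_continuousOn ?_
  exact ((continuousOn_const.mul ((hcc.sub continuousOn_const).pow 2)).div_const 2).neg

lemma per_xi2 {C : ℝ} (hmv : ∀ (N : ℕ) (a : ℕ → ℂ) (g g' : ℕ → ℝ → ℂ) (x₀ x₁ V : ℝ), 1 ≤ N →
    x₀ ≤ x₁ → 0 ≤ V → (∀ k, ∀ x ∈ Icc x₀ x₁, HasDerivAt (g k) (g' k x) x) →
    (∀ k, ContinuousOn (g' k) (Icc x₀ x₁)) → (∀ k, ∀ x ∈ Icc x₀ x₁, ‖g k x‖ ≤ 1) →
    (∀ k, ∀ x ∈ Icc x₀ x₁, ‖g' k x‖ * (x₁ - x₀) ≤ V) →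
    |(∫ x in x₀..x₁, ‖∑ k ∈ Finset.Icc 1 N, a k * g k x *
        cexp (((-(x * Real.log k) : ℝ) : ℂ) * I)‖ ^ 2) -
      ∑ k ∈ Finset.Icc 1 N, ‖a k‖ ^ 2 * ∫ x in x₀..x₁, ‖g k x‖ ^ 2| ≤
      C * (1 + V) * N * Real.log (N + 1) * ∑ k ∈ Finset.Icc 1 N, ‖a k‖ ^ 2)
    (β d B η T H V ξ : ℝ) (hβ : 0 < β) (hd : 0 < d) (hT : 1 ≤ T) (hH : T ≤ H) (hV : 0 ≤ V)
    (hHV : H + V ≤ 2 * T) (N : ℕ) (hN : 1 ≤ N) (a : ℕ → ℂ) :
    |(∫ u in H..(H + V), ‖Dg β d B η N a ξ u‖ ^ 2) -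
      ∑ k ∈ Finset.Icc 1 N, ‖a k‖ ^ 2 * Je β d B η H V (Real.log k + ξ)| ≤
      C * (1 + β * (d + |η|)) * N * Real.log (N + 1) * ∑ k ∈ Finset.Icc 1 N, ‖a k‖ ^ 2 := by
  have hT0 : 0 < T := by linarith
  have hle : H ≤ H + V := by linarith
  have hpos : ∀ u ∈ Icc H (H + V), 0 < u := fun u hu => by linarith [hu.1]
  have hsub : Icc H (H + V) ⊆ Ioi (0 : ℝ) := hpos
  obtain ⟨g, hg⟩ : ∃ g : ℕ → ℝ → ℂ, g = fun (k : ℕ) (u : ℝ) =>
    ((Ga β (cu d B η) (Real.log k + ξ) u : ℝ) : ℂ) := ⟨_, rfl⟩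
  obtain ⟨g', hg'⟩ : ∃ g' : ℕ → ℝ → ℂ, g' = fun (k : ℕ) (u : ℝ) =>
    ((Ga β (cu d B η) (Real.log k + ξ) u *
        (-(β ^ 2 * (cu d B η u - (Real.log k + ξ)) * cu' d η u / 2)) : ℝ) : ℂ) := ⟨_, rfl⟩
  have hder : ∀ k, ∀ u ∈ Icc H (H + V), HasDerivAt (g k) (g' k u) u := by
    intro k u hu
    rw [hg, hg']
    exact (hasDerivAt_Ga β (Real.log k + ξ) (hasDerivAt_cu d B η (hpos u hu))).ofReal_comp
  have hcont : ∀ k, ContinuousOn (g' k) (Icc H (H + V)) := by
    intro k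
    rw [hg']
    refine Complex.continuous_ofReal.comp_continuousOn ?_
    have hGc : ContinuousOn (Ga β (cu d B η) (Real.log k + ξ)) (Icc H (H + V)) :=
      fun u hu => (hasDerivAt_Ga β (Real.log k + ξ)
        (hasDerivAt_cu d B η (hpos u hu))).continuousAt.continuousWithinAt
    have hcc := (continuousOn_cu d B η).mono hsub
    have hcc' := (continuousOn_cu' d η).mono hsub
    refine hGc.mul ?_
    exact (((continuousOn_const.mul (hcc.sub continuousOn_const)).mul hcc').div_const 2).neg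
  have hb : ∀ k, ∀ u ∈ Icc H (H + V), ‖g k u‖ ≤ 1 := by
    intro k u hu
    rw [hg]
    simp only
    rw [Complex.norm_real, Real.norm_eq_abs, abs_of_nonneg (Ga_nonneg _ _ _ _)]
    exact Ga_le_one _ _ _ _
  have hb' : ∀ k, ∀ u ∈ Icc H (H + V), ‖g' k u‖ * (H + V - H) ≤ β * (d + |η|) := by
    intro k u hu
    have h3 : ‖g' k u‖ ≤ β * ((d + |η|) / T) := by
      rw [hg']
      simp only
      rw [Complex.norm_real, Real.norm_eq_abs]
      have h4 := Ga_der_le hβ (Real.log k + ξ) u (cu' d η u) (cu d B η)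
      have h5 : |cu' d η u| ≤ (d + |η|) / T := abs_cu'_le hd hT (by linarith [hu.1])
      exact h4.trans (mul_le_mul_of_nonneg_left h5 hβ.le)
    calc ‖g' k u‖ * (H + V - H) ≤ β * ((d + |η|) / T) * T :=
          mul_le_mul h3 (by linarith) (by linarith) (by positivity)
      _ = β * (d + |η|) := by field_simp
  have hmain := hmv N a g g' H (H + V) (β * (d + |η|)) hN hle (by positivity) hder hcont hb hb'
  have hL : ∫ u in H..(H + V), ‖Dg β d B η N a ξ u‖ ^ 2 =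
      ∫ u in H..(H + V), ‖∑ k ∈ Finset.Icc 1 N, a k * g k u *
        cexp (((-(u * Real.log k) : ℝ) : ℂ) * I)‖ ^ 2 := by
    refine intervalIntegral.integral_congr fun u hu => ?_
    have h3 : ∑ k ∈ Finset.Icc 1 N, a k * g k u * cexp (((-(u * Real.log k) : ℝ) : ℂ) * I) =
        Dg β d B η N a ξ u := by
      unfold Dg
      refine Finset.sum_congr rfl fun k _ => ?_
      rw [hg]
      simp only
      unfold Ga
      rw [show cu d B η u - (Real.log k + ξ) = cu d B η u - Real.log k - ξ by ring]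
      ring
    rw [h3]
  have hR : ∑ k ∈ Finset.Icc 1 N, ‖a k‖ ^ 2 * Je β d B η H V (Real.log k + ξ) =
      ∑ k ∈ Finset.Icc 1 N, ‖a k‖ ^ 2 * ∫ x in H..(H + V), ‖g k x‖ ^ 2 := by
    refine Finset.sum_congr rfl fun k _ => ?_
    congr 1
    unfold Je
    refine intervalIntegral.integral_congr fun u hu => ?_
    rw [hg]
    simp only
    rw [Complex.norm_real, Real.norm_eq_abs, sq_abs]
    unfold Ga
    rw [← Real.exp_nat_mul]
    congr 1
    push_cast
    ring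
  rw [hL, hR]
  exact hmain

lemma Je_nonneg (β d B η H V l : ℝ) (hV : 0 ≤ V) : 0 ≤ Je β d B η H V l :=
  intervalIntegral.integral_nonneg (by linarith) fun _ _ => (Real.exp_pos _).le

/-- pointwise bound for the diagonal integral -/
lemma Je_le (β d B η H V l E : ℝ) (hH : 0 < H) (hV : 0 ≤ V)
    (hE : ∀ u ∈ Icc H (H + V), Real.exp (-(β ^ 2 * (cu d B η u - l) ^ 2 / 2)) ≤ E) :
    Je β d B η H V l ≤ V * E := by
  have hle : H ≤ H + V := by linarith
  have h1 : Je β d B η H V l ≤ ∫ u in H..(H + V), E := by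
    unfold Je
    refine intervalIntegral.integral_mono_on hle ?_ (by simp) hE
    apply ContinuousOn.intervalIntegrable
    rw [uIcc_of_le hle]
    exact contOn_gauss β d B η H V l hH
  refine h1.trans (le_of_eq ?_)
  rw [intervalIntegral.integral_const, smul_eq_mul]
  ring

lemma Je_cont (β d B η H V l : ℝ) (hH : 0 < H) (hV : 0 ≤ V) :
    Continuous fun ξ => Je β d B η H V (l + ξ) := by
  have hle : H ≤ H + V := by linarith
  unfold Je
  refine intervalIntegral.continuous_of_dominated_interval (bound := fun _ => 1) ?_ ?_ (by simp) ?_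
  · intro ξ
    rw [uIoc_of_le hle]
    exact ((contOn_gauss β d B η H V (l + ξ) hH).mono Ioc_subset_Icc_self).aestronglyMeasurable
      measurableSet_Ioc
  · intro ξ
    refine Eventually.of_forall fun u hu => ?_
    rw [Real.norm_eq_abs, abs_of_nonneg (Real.exp_pos _).le, Real.exp_le_one_iff]
    have : 0 ≤ β ^ 2 * (cu d B η u - (l + ξ)) ^ 2 / 2 := by positivity
    linarith
  · refine Eventually.of_forall fun u _ => ?_
    fun_prop

/-- the order of integration -/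
lemma Je_swap (β d B η H V l ξ₁ ξ₂ : ℝ) (hH : 0 < H) (hV : 0 ≤ V) (h : ξ₁ ≤ ξ₂) :
    ∫ ξ in ξ₁..ξ₂, Je β d B η H V (l + ξ) =
      ∫ u in H..(H + V), ∫ ξ in ξ₁..ξ₂, Real.exp (-(β ^ 2 * (cu d B η u - l - ξ) ^ 2 / 2)) := by
  have hle : H ≤ H + V := by linarith
  have h1 : ∫ ξ in ξ₁..ξ₂, Je β d B η H V (l + ξ) = ∫ ξ in ξ₁..ξ₂, ∫ u in H..(H + V),
      Real.exp (-(β ^ 2 * (cu d B η u - l - ξ) ^ 2 / 2)) := by
    refine intervalIntegral.integral_congr fun ξ _ => ?_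
    unfold Je
    refine intervalIntegral.integral_congr fun u _ => ?_
    rw [show cu d B η u - (l + ξ) = cu d B η u - l - ξ by ring]
  rw [h1]
  apply intervalIntegral_intervalIntegral_swap
  rw [uIoc_of_le h, uIoc_of_le hle]
  have hcc : ContinuousOn (fun q : ℝ × ℝ => cu d B η q.2) (Icc ξ₁ ξ₂ ×ˢ Icc H (H + V)) := by
    refine (continuousOn_cu d B η).comp continuous_snd.continuousOn ?_
    intro q hq
    exact hH.trans_le hq.2.1
  have h2 : ContinuousOn (fun q : ℝ × ℝ => Real.exp (-(β ^ 2 * (cu d B η q.2 - l - q.1) ^ 2 / 2)))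
      (Icc ξ₁ ξ₂ ×ˢ Icc H (H + V)) := by
    refine Real.continuous_exp.comp_continuousOn ?_
    refine ((continuousOn_const.mul (((hcc.sub continuousOn_const).sub ?_).pow 2)).div_const 2).neg
    fun_prop
  have h3 := h2.integrableOn_compact (μ := volume) (isCompact_Icc.prod isCompact_Icc)
  exact h3.mono_set (prod_mono Ioc_subset_Icc_self Ioc_subset_Icc_self)

lemma cont_inner (β d B η H V l ξ₁ ξ₂ : ℝ) (hH : 0 < H) (hV : 0 ≤ V) :
    IntervalIntegrable (fun u => ∫ ξ in ξ₁..ξ₂,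
      Real.exp (-(β ^ 2 * (cu d B η u - l - ξ) ^ 2 / 2))) volume H (H + V) := by
  have hc : Continuous fun m : ℝ => ∫ ξ in ξ₁..ξ₂, Real.exp (-(β ^ 2 * (m - l - ξ) ^ 2 / 2)) := by
    refine intervalIntegral.continuous_parametric_intervalIntegral_of_continuous' ?_ _ _
    fun_prop
  apply ContinuousOn.intervalIntegrable
  rw [uIcc_of_le (by linarith)]
  have hcc := (continuousOn_cu d B η).mono (show Icc H (H + V) ⊆ Ioi (0 : ℝ) from
    fun u hu => hH.trans_le hu.1)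
  exact hc.comp_continuousOn hcc

/-- upper bound for the double integral -/
lemma Je_int_le (β d B η H V l ξ₁ ξ₂ : ℝ) (hβ : 0 < β) (hH : 0 < H) (hV : 0 ≤ V) (h : ξ₁ ≤ ξ₂) :
    ∫ ξ in ξ₁..ξ₂, Je β d B η H V (l + ξ) ≤ V * (Real.sqrt (2 * Real.pi) / β) := by
  rw [Je_swap β d B η H V l ξ₁ ξ₂ hH hV h]
  have h1 : ∫ u in H..(H + V), ∫ ξ in ξ₁..ξ₂, Real.exp (-(β ^ 2 * (cu d B η u - l - ξ) ^ 2 / 2)) ≤
      ∫ u in H..(H + V), Real.sqrt (2 * Real.pi) / β := by
    refine intervalIntegral.integral_mono_on (by linarith) (cont_inner β d B η H V l ξ₁ ξ₂ hH hV)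
      (by simp) fun u _ => ?_
    exact gauss_le hβ (cu d B η u - l) ξ₁ ξ₂ h
  refine h1.trans (le_of_eq ?_)
  rw [intervalIntegral.integral_const, smul_eq_mul]
  ring

/-- lower bound for the integral of a Gaussian over an interval -/
lemma gauss_ge {β : ℝ} (hβ : 0 < β) (m ξ₁ ξ₂ a : ℝ) (ha : 0 ≤ a) (h1 : ξ₁ ≤ m - a)
    (h2 : m + a ≤ ξ₂) :
    Real.sqrt (2 * Real.pi) / β - Real.exp (-(β ^ 2 * a ^ 2 / 4)) * (2 * Real.sqrt Real.pi / β) ≤
      ∫ ξ in ξ₁..ξ₂, Real.exp (-(β ^ 2 * (m - ξ) ^ 2 / 2)) := by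
  have hle : ξ₁ ≤ ξ₂ := by linarith
  have i1 : Integrable fun ξ : ℝ => Real.exp (-(β ^ 2 * (m - ξ) ^ 2 / 2)) := by
    have h2 := (integrable_exp_neg_mul_sq (b := β ^ 2 / 2) (by positivity)).comp_sub_left m
    refine h2.congr (Eventually.of_forall fun ξ => ?_)
    simp only
    congr 1
    ring
  have i2 : Integrable fun ξ : ℝ => Real.exp (-(β ^ 2 * (m - ξ) ^ 2 / 4)) := by
    have h2 := (integrable_exp_neg_mul_sq (b := β ^ 2 / 4) (by positivity)).comp_sub_left m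
    refine h2.congr (Eventually.of_forall fun ξ => ?_)
    simp only
    congr 1
    ring
  have e1 : ∫ ξ : ℝ, Real.exp (-(β ^ 2 * (m - ξ) ^ 2 / 2)) = Real.sqrt (2 * Real.pi) / β := by
    have h3 := integral_gaussian (β ^ 2 / 2)
    have h4 := integral_sub_left_eq_self (fun x : ℝ => Real.exp (-(β ^ 2 / 2) * x ^ 2)) volume m
    calc ∫ ξ : ℝ, Real.exp (-(β ^ 2 * (m - ξ) ^ 2 / 2)) =
          ∫ ξ : ℝ, Real.exp (-(β ^ 2 / 2) * (m - ξ) ^ 2) := by
          congr 1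
          ext ξ
          congr 1
          ring
      _ = Real.sqrt (Real.pi / (β ^ 2 / 2)) := by rw [h4, h3]
      _ = Real.sqrt (2 * Real.pi) / β := by
          rw [show Real.pi / (β ^ 2 / 2) = 2 * Real.pi / β ^ 2 by field_simp,
            Real.sqrt_div' _ (by positivity), Real.sqrt_sq hβ.le]
  have e2 : ∫ ξ : ℝ, Real.exp (-(β ^ 2 * (m - ξ) ^ 2 / 4)) = 2 * Real.sqrt Real.pi / β := by
    have h3 := integral_gaussian (β ^ 2 / 4)
    have h4 := integral_sub_left_eq_self (fun x : ℝ => Real.exp (-(β ^ 2 / 4) * x ^ 2)) volume m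
    calc ∫ ξ : ℝ, Real.exp (-(β ^ 2 * (m - ξ) ^ 2 / 4)) =
          ∫ ξ : ℝ, Real.exp (-(β ^ 2 / 4) * (m - ξ) ^ 2) := by
          congr 1
          ext ξ
          congr 1
          ring
      _ = Real.sqrt (Real.pi / (β ^ 2 / 4)) := by rw [h4, h3]
      _ = 2 * Real.sqrt Real.pi / β := by
          rw [show Real.pi / (β ^ 2 / 4) = (2 / β) ^ 2 * Real.pi by field_simp; ring,
            Real.sqrt_mul (by positivity), Real.sqrt_sq (by positivity)]
          ring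
  have hsplit := integral_add_compl (μ := volume) (measurableSet_Ioc (a := ξ₁) (b := ξ₂)) i1
  rw [e1] at hsplit
  rw [intervalIntegral.integral_of_le hle]
  have htail : ∫ ξ in (Ioc ξ₁ ξ₂)ᶜ, Real.exp (-(β ^ 2 * (m - ξ) ^ 2 / 2)) ≤
      Real.exp (-(β ^ 2 * a ^ 2 / 4)) * (2 * Real.sqrt Real.pi / β) := by
    calc ∫ ξ in (Ioc ξ₁ ξ₂)ᶜ, Real.exp (-(β ^ 2 * (m - ξ) ^ 2 / 2)) ≤
          ∫ ξ in (Ioc ξ₁ ξ₂)ᶜ, Real.exp (-(β ^ 2 * a ^ 2 / 4)) *
            Real.exp (-(β ^ 2 * (m - ξ) ^ 2 / 4)) := by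
          refine setIntegral_mono_on i1.integrableOn (i2.const_mul _).integrableOn
            measurableSet_Ioc.compl fun ξ hξ => ?_
          rw [← Real.exp_add, Real.exp_le_exp]
          have h5 : a ^ 2 ≤ (m - ξ) ^ 2 := by
            rw [mem_compl_iff, mem_Ioc, not_and_or, not_lt, not_le] at hξ
            rcases hξ with h6 | h6
            · exact pow_le_pow_left₀ ha (by linarith) 2
            · rw [← neg_sq (m - ξ)]
              exact pow_le_pow_left₀ ha (by linarith) 2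
          have h6 := mul_le_mul_of_nonneg_left h5 (sq_nonneg β)
          linarith
      _ ≤ ∫ ξ : ℝ, Real.exp (-(β ^ 2 * a ^ 2 / 4)) * Real.exp (-(β ^ 2 * (m - ξ) ^ 2 / 4)) :=
          setIntegral_le_integral (i2.const_mul _) (Eventually.of_forall fun ξ => by positivity)
      _ = _ := by rw [integral_const_mul, e2]
  linarith

/-- lower bound for the double integral -/
lemma Je_int_ge (β d B η H V l ξ₁ ξ₂ a : ℝ) (hβ : 0 < β) (hH : 0 < H) (hV : 0 ≤ V)
    (ha : 0 ≤ a) (h : ξ₁ ≤ ξ₂) (h1 : ∀ u ∈ Icc H (H + V), ξ₁ + a ≤ cu d B η u - l)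
    (h2 : ∀ u ∈ Icc H (H + V), cu d B η u - l ≤ ξ₂ - a) :
    V * (Real.sqrt (2 * Real.pi) / β - Real.exp (-(β ^ 2 * a ^ 2 / 4)) *
      (2 * Real.sqrt Real.pi / β)) ≤ ∫ ξ in ξ₁..ξ₂, Je β d B η H V (l + ξ) := by
  rw [Je_swap β d B η H V l ξ₁ ξ₂ hH hV h]
  have h3 : ∫ u in H..(H + V), (Real.sqrt (2 * Real.pi) / β -
      Real.exp (-(β ^ 2 * a ^ 2 / 4)) * (2 * Real.sqrt Real.pi / β)) ≤
      ∫ u in H..(H + V), ∫ ξ in ξ₁..ξ₂, Real.exp (-(β ^ 2 * (cu d B η u - l - ξ) ^ 2 / 2)) := by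
    refine intervalIntegral.integral_mono_on (by linarith) (by simp)
      (cont_inner β d B η H V l ξ₁ ξ₂ hH hV) fun u hu => ?_
    exact gauss_ge hβ (cu d B η u - l) ξ₁ ξ₂ a ha (by linarith [h1 u hu]) (by linarith [h2 u hu])
  refine le_trans (le_of_eq ?_) h3
  rw [intervalIntegral.integral_const, smul_eq_mul]
  ring

/-- the mean square is a continuous function of the parameter -/
lemma Dg_cont (β d B η H V : ℝ) (hH : 0 < H) (hV : 0 ≤ V) (N : ℕ) (a : ℕ → ℂ) :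
    Continuous fun ξ => ∫ u in H..(H + V), ‖Dg β d B η N a ξ u‖ ^ 2 := by
  have hle : H ≤ H + V := by linarith
  refine intervalIntegral.continuous_of_dominated_interval
    (bound := fun _ => (∑ k ∈ Finset.Icc 1 N, ‖a k‖) ^ 2) ?_ ?_ (by simp) ?_
  · intro ξ
    rw [uIoc_of_le hle]
    have hcc := (continuousOn_cu d B η).mono (show Icc H (H + V) ⊆ Ioi (0 : ℝ) from
      fun u hu => hH.trans_le hu.1)
    have h1 : ContinuousOn (fun u => ‖Dg β d B η N a ξ u‖ ^ 2) (Icc H (H + V)) := by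
      unfold Dg
      refine ContinuousOn.pow (ContinuousOn.norm (continuousOn_finsetSum _ fun k _ => ?_)) 2
      refine ContinuousOn.mul ?_ ?_
      · exact (Continuous.continuousOn (by fun_prop))
      · refine Complex.continuous_ofReal.comp_continuousOn ?_
        refine Real.continuous_exp.comp_continuousOn ?_
        exact ((continuousOn_const.mul (((hcc.sub continuousOn_const).sub
          continuousOn_const).pow 2)).div_const 4).neg
    exact (h1.mono Ioc_subset_Icc_self).aestronglyMeasurable measurableSet_Ioc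
  · intro ξ
    refine Eventually.of_forall fun u _ => ?_
    rw [Real.norm_eq_abs, abs_of_nonneg (by positivity)]
    refine pow_le_pow_left₀ (norm_nonneg _) ?_ 2
    unfold Dg
    refine (norm_sum_le _ _).trans (Finset.sum_le_sum fun k _ => ?_)
    rw [norm_mul, norm_mul, Complex.norm_exp_ofReal_mul_I, mul_one, Complex.norm_real,
      Real.norm_eq_abs, abs_of_nonneg (Real.exp_pos _).le]
    refine mul_le_of_le_one_right (norm_nonneg _) ?_
    rw [Real.exp_le_one_iff]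
    have : 0 ≤ β ^ 2 * (cu d B η u - Real.log k - ξ) ^ 2 / 4 := by positivity
    linarith
  · refine Eventually.of_forall fun u _ => ?_
    unfold Dg
    fun_prop

end Pool.Agent.H14.RS
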