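import Pool.Agent.H14.RS.MSB1

/-! Module MSB of rs_modules: numerical estimates, grouping. -/

set_option autoImplicit false

open Complex MeasureTheory Set Filter Topology

namespace Pool.Agent.H14.RS

open Pool.Agent.H29.RS Pool.Agent.H29.RT Pool.Agent.H25.DP Pool.Agent.H25.DL
open Pool.Agent.H33.RT

/-- the errors are small -/
lemma numB (D κ K C₁ C₂ X G b₀ : ℝ) (hD0 : 0 < D) (hDκ : D < κ) (hκ : κ ≤ 1) (hK : 1 ≤ K)
    (hC₁ : 0 < C₁) (hC₂ : 0 < C₂) (hX : 0 < X) (hG : 0 < G) (hb₀ : 0 < b₀) :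
    ∀ᶠ T : ℝ in atTop, ∀ (N : ℕ) (S V : ℝ), 1 ≤ N → (N : ℝ) ≤ K * T ^ D → 0 ≤ S →
    S ≤ C₂ * (N : ℝ) ^ ((κ - D) / 8) → T ^ κ / 4 ≤ V →
    X * Real.log T * (C₁ * N * Real.log (N + 1) * S) +
      S * (X * Real.log T * (V * Real.exp (-(b₀ * Real.log T ^ 2)))) +
      S * (V * (Real.exp (-(b₀ * Real.log T ^ 2)) * G)) ≤
      V * T ^ (-((κ - D) / 4)) := by
  obtain ⟨A₁, hA₁⟩ : ∃ A₁ : ℝ, A₁ = 2 + Real.log K := ⟨_, rfl⟩
  have hlK : 0 ≤ Real.log K := Real.log_nonneg hK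
  have hA₁0 : 0 < A₁ := by rw [hA₁]; linarith
  obtain ⟨A₂, hA₂⟩ : ∃ A₂ : ℝ, A₂ = 4 * (X * (C₁ * K * A₁ * (C₂ * K))) + C₂ * K * X + C₂ * K * G :=
    ⟨_, rfl⟩
  have hA₂0 : 0 < A₂ := by rw [hA₂]; positivity
  filter_upwards [Pool.Agent.H74.DP.ev_log_pow_le (c := (κ - D) / 8) (by linarith) (4 * A₂) 2,
    eventually_ge_atTop (Real.exp 1), Real.tendsto_log_atTop.eventually_gt_atTop (1 / b₀),
    eventually_ge_atTop (1 : ℝ)] with T h1 h2 h3 hT1
  intro N S V hN hNK hS hSN hV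
  have hT0 : 0 < T := by linarith
  obtain ⟨L, hL⟩ : ∃ L, L = Real.log T := ⟨_, rfl⟩
  rw [← hL] at h1 h3 ⊢
  have hL1 : 1 ≤ L := by
    rw [hL, Real.le_log_iff_exp_le hT0]
    exact h2
  obtain ⟨P, hP⟩ : ∃ P, P = 1 + L := ⟨_, rfl⟩
  have hP1 : 1 ≤ P := by linarith
  have hPL : P ≤ 2 * L := by linarith
  have hLP : L ≤ P := by linarith
  have hN0 : (1 : ℝ) ≤ N := by exact_mod_cast hN
  have hTD : 0 < T ^ D := Real.rpow_pos_of_pos hT0 D
  have hTk : 0 < T ^ κ := Real.rpow_pos_of_pos hT0 κ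
  have hV0 : 0 < V := by linarith
  have hD1 : D < 1 := by linarith
  have hlN : Real.log N ≤ Real.log K + L := by
    calc Real.log N ≤ Real.log (K * T ^ D) := Real.log_le_log (by linarith) hNK
      _ = Real.log K + D * L := by
          rw [Real.log_mul (by linarith) hTD.ne', Real.log_rpow hT0, hL]
      _ ≤ Real.log K + L := by nlinarith
  have hlN1 : Real.log (N + 1) ≤ A₁ * P := by
    have h5 : Real.log (N + 1) ≤ Real.log 2 + Real.log N := by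
      rw [← Real.log_mul (by norm_num) (by linarith)]
      exact Real.log_le_log (by linarith) (by linarith)
    have h6 : Real.log 2 ≤ 1 := by
      have := Real.log_two_lt_d9
      linarith
    rw [hA₁, hP]
    nlinarith
  have hlN10 : 0 ≤ Real.log (N + 1) := Real.log_nonneg (by linarith)
  obtain ⟨τ, hτ⟩ : ∃ τ : ℝ, τ = T ^ ((κ - D) / 8) := ⟨_, rfl⟩
  have hτ1 : 1 ≤ τ := by rw [hτ]; exact Real.one_le_rpow hT1 (by linarith)
  have hτ0 : 0 < τ := by linarith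
  have hNe : (N : ℝ) ^ ((κ - D) / 8) ≤ K * τ := by
    calc (N : ℝ) ^ ((κ - D) / 8) ≤ (K * T ^ D) ^ ((κ - D) / 8) :=
          Real.rpow_le_rpow (by linarith) hNK (by linarith)
      _ = K ^ ((κ - D) / 8) * (T ^ D) ^ ((κ - D) / 8) := Real.mul_rpow (by linarith) hTD.le
      _ ≤ K * τ := by
          have h7 : K ^ ((κ - D) / 8) ≤ K := by
            calc K ^ ((κ - D) / 8) ≤ K ^ (1 : ℝ) :=
                  Real.rpow_le_rpow_of_exponent_le hK (by linarith)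
              _ = K := Real.rpow_one K
          have h8 : (T ^ D) ^ ((κ - D) / 8) ≤ τ := by
            rw [hτ, ← Real.rpow_mul hT0.le]
            refine Real.rpow_le_rpow_of_exponent_le hT1 ?_
            nlinarith
          gcongr
  have hSb : S ≤ C₂ * (K * τ) := hSN.trans (mul_le_mul_of_nonneg_left hNe hC₂.le)
  obtain ⟨σ, hσ⟩ : ∃ σ : ℝ, σ = T ^ (-(κ - D)) := ⟨_, rfl⟩
  have hσ0 : 0 < σ := by rw [hσ]; exact Real.rpow_pos_of_pos hT0 _
  have hE : Real.exp (-(b₀ * L ^ 2)) ≤ σ := by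
    have h9 : Real.exp (-(b₀ * L ^ 2)) ≤ Real.exp (-L) := by
      rw [Real.exp_le_exp]
      have h10 : 1 ≤ b₀ * L := by
        rw [one_div] at h3
        have := (inv_lt_iff_one_lt_mul₀ hb₀).1 h3
        linarith
      nlinarith
    have h11 : Real.exp (-L) = T ^ (-(1 : ℝ)) := by
      rw [Real.exp_neg, hL, Real.exp_log hT0, Real.rpow_neg_one]
    rw [h11] at h9
    refine h9.trans ?_
    rw [hσ]
    exact Real.rpow_le_rpow_of_exponent_le hT1 (by linarith)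
  have hTDV : T ^ D ≤ 4 * V * σ := by
    have h12 : T ^ D = T ^ κ * σ := by
      rw [hσ, ← Real.rpow_add hT0]
      congr 1
      ring
    rw [h12]
    have : T ^ κ ≤ 4 * V := by linarith
    exact mul_le_mul_of_nonneg_right this hσ0.le
  have hL0 : 0 ≤ L := by linarith
  have e1 : X * L * (C₁ * N * Real.log (N + 1) * S) ≤
      4 * (X * (C₁ * K * A₁ * (C₂ * K))) * (V * σ * τ * P ^ 2) := by
    calc X * L * (C₁ * N * Real.log (N + 1) * S) ≤
          X * P * (C₁ * (K * T ^ D) * (A₁ * P) * (C₂ * (K * τ))) := by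
          gcongr
      _ = X * (C₁ * K * A₁ * (C₂ * K)) * (T ^ D) * (τ * P ^ 2) := by ring
      _ ≤ X * (C₁ * K * A₁ * (C₂ * K)) * (4 * V * σ) * (τ * P ^ 2) := by gcongr
      _ = _ := by ring
  have e2 : S * (X * L * (V * Real.exp (-(b₀ * L ^ 2)))) ≤
      C₂ * K * X * (V * σ * τ * P ^ 2) := by
    calc S * (X * L * (V * Real.exp (-(b₀ * L ^ 2)))) ≤
          (C₂ * (K * τ)) * (X * P * (V * σ)) := by
          gcongr
      _ = C₂ * K * X * (V * σ * τ * P) := by ring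
      _ ≤ C₂ * K * X * (V * σ * τ * P ^ 2) := by
          have : P ≤ P ^ 2 := by nlinarith
          gcongr
  have e3 : S * (V * (Real.exp (-(b₀ * L ^ 2)) * G)) ≤
      C₂ * K * G * (V * σ * τ * P ^ 2) := by
    calc S * (V * (Real.exp (-(b₀ * L ^ 2)) * G)) ≤ (C₂ * (K * τ)) * (V * (σ * G)) := by
          gcongr
      _ = C₂ * K * G * (V * σ * τ * 1) := by ring
      _ ≤ C₂ * K * G * (V * σ * τ * P ^ 2) := by
          have : 1 ≤ P ^ 2 := by nlinarith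
          gcongr
  have h13 : A₂ * P ^ 2 ≤ τ := by
    have h14 : L ^ (2 : ℝ) = L ^ 2 := by
      rw [show (2 : ℝ) = ((2 : ℕ) : ℝ) by norm_num, Real.rpow_natCast]
    rw [h14] at h1
    calc A₂ * P ^ 2 ≤ A₂ * (2 * L) ^ 2 := by gcongr
      _ = 4 * A₂ * L ^ 2 := by ring
      _ ≤ τ := by rw [hτ]; exact h1
  calc X * L * (C₁ * N * Real.log (N + 1) * S) +
      S * (X * L * (V * Real.exp (-(b₀ * L ^ 2)))) + S * (V * (Real.exp (-(b₀ * L ^ 2)) * G))
      ≤ 4 * (X * (C₁ * K * A₁ * (C₂ * K))) * (V * σ * τ * P ^ 2) +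
        C₂ * K * X * (V * σ * τ * P ^ 2) + C₂ * K * G * (V * σ * τ * P ^ 2) :=
        add_le_add (add_le_add e1 e2) e3
    _ = V * (σ * τ * (A₂ * P ^ 2)) := by rw [hA₂]; ring
    _ ≤ V * (σ * τ * τ) := by gcongr
    _ = V * T ^ (-(κ - D) + (κ - D) / 8 + (κ - D) / 8) := by
        rw [Real.rpow_add hT0, Real.rpow_add hT0, hτ, hσ]
    _ ≤ V * T ^ (-((κ - D) / 4)) := by
        refine mul_le_mul_of_nonneg_left ?_ hV0.le
        exact Real.rpow_le_rpow_of_exponent_le hT1 (by linarith)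

variable {ι : Type} [Fintype ι]

lemma bt_eq (f : ι → Fac) (D T : ℝ) (k : ℕ) :
    bt f D T k = ∑ z ∈ (TU f D T).filter (fun z => nn f z = k), co f z := by
  unfold bt
  refine Finset.sum_congr ?_ fun _ _ => rfl
  ext z
  simp only [Finset.mem_filter]

lemma nn_pos (f : ι → Fac) (z : ι → ℕ) (hz : ∀ l, 1 ≤ z l) : 1 ≤ nn f z := by
  unfold nn
  exact Nat.one_le_iff_ne_zero.2 (Finset.prod_ne_zero_iff.2 fun l _ =>
    pow_ne_zero _ (by have := hz l; omega))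

/-- grouping by the integer -/
lemma BR_eqB (f : ι → Fac) (β D T d B η ξ u K : ℝ)
    (hB : ∀ z ∈ TU f D T, (∀ l, 1 ≤ z l) ∧ (nn f z : ℝ) ≤ K * T ^ D)
    (hC : ∀ z : ι → ℕ, (∀ l, 1 ≤ z l) → lam f z = Real.log (nn f z))
    (N : ℕ) (hN : ⌊K * T ^ D⌋₊ ≤ N) :
    BR f β D T d B η ξ u = Dg β d B η N (bt f D T) ξ u := by
  have hmaps : ∀ z ∈ TU f D T, nn f z ∈ Finset.Icc 1 N := by
    intro z hz
    obtain ⟨h1, h2⟩ := hB z hz
    rw [Finset.mem_Icc]
    exact ⟨nn_pos f z h1, (Nat.le_floor h2).trans hN⟩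
  unfold BR Dg
  rw [← Finset.sum_fiberwise_of_maps_to hmaps]
  refine Finset.sum_congr rfl fun k hk => ?_
  rw [bt_eq, Finset.sum_mul, Finset.sum_mul]
  refine Finset.sum_congr rfl fun z hz => ?_
  rw [Finset.mem_filter] at hz
  obtain ⟨h1, _⟩ := hB z hz.1
  rw [hC z h1, hz.2]
  rfl

/-- the difference of energies -/
lemma E2_sub (f : ι → Fac) (y Y : ℝ) (hyY : y ≤ Y) :
    ∑ k ∈ (Finset.Icc 1 ⌊Y⌋₊).filter (fun k => ⌊y⌋₊ < k), ‖bc f k‖ ^ 2 = E2 f Y - E2 f y := by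
  have hle : ⌊y⌋₊ ≤ ⌊Y⌋₊ := Nat.floor_le_floor hyY
  have h1 : E2 f Y = E2 f y +
      ∑ k ∈ (Finset.Icc 1 ⌊Y⌋₊).filter (fun k => ⌊y⌋₊ < k), ‖bc f k‖ ^ 2 := by
    unfold E2
    rw [← Finset.sum_filter_add_sum_filter_not (Finset.Icc 1 ⌊Y⌋₊) (fun k => k ≤ ⌊y⌋₊)]
    congr 1
    · refine Finset.sum_congr ?_ fun _ _ => rfl
      ext k
      simp only [Finset.mem_filter, Finset.mem_Icc]
      constructor
      · rintro ⟨⟨h2, _⟩, h4⟩
        exact ⟨h2, h4⟩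
      · rintro ⟨h2, h4⟩
        exact ⟨⟨h2, h4.trans hle⟩, h4⟩
    · refine Finset.sum_congr ?_ fun _ _ => rfl
      ext k
      simp only [Finset.mem_filter, Finset.mem_Icc, not_le]
  rw [h1]
  ring

lemma E2_mono (f : ι → Fac) (y Y : ℝ) (hyY : y ≤ Y) : E2 f y ≤ E2 f Y := by
  have h := E2_sub f y Y hyY
  have h2 : 0 ≤ ∑ k ∈ (Finset.Icc 1 ⌊Y⌋₊).filter (fun k => ⌊y⌋₊ < k), ‖bc f k‖ ^ 2 :=
    Finset.sum_nonneg fun k _ => by positivity
  linarith

/-- bounds for the centre -/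
lemma cu_bounds2 (d B η T u : ℝ) (hd : 0 < d) (hT : 1 ≤ T) (hu1 : T ≤ u) (hu2 : u ≤ 2 * T) :
    d * Real.log T - (d + |B| + |η| + d) ≤ cu d B η u ∧
      cu d B η u ≤ d * Real.log T + (d + |B| + |η| + d) := by
  have hu0 : 0 < u := by linarith
  have hT0 : 0 < T := by linarith
  have h1 : Real.log T ≤ Real.log u := Real.log_le_log hT0 hu1
  have h2 : Real.log u ≤ Real.log T + 1 := by
    have h3 : Real.log u ≤ Real.log (2 * T) := Real.log_le_log hu0 (by linarith)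
    rw [Real.log_mul (by norm_num) hT0.ne'] at h3
    have := Real.log_two_lt_d9
    linarith
  have h4 : |η / u| ≤ |η| := by
    rw [abs_div, abs_of_pos hu0]
    exact div_le_self (abs_nonneg _) (by linarith)
  have h5 := abs_le.1 h4
  have h6 := abs_le.1 (le_refl |B|)
  unfold cu
  constructor
  · nlinarith [mul_le_mul_of_nonneg_left h1 hd.le, h5.1, h6.1]
  · nlinarith [mul_le_mul_of_nonneg_left h2 hd.le, h5.2, h6.2]

/-- the frequencies far from the window -/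
lemma Je_far (β d B η x₁ x₂ δ : ℝ) (hd : 0 < d) (hδ : 0 < δ) :
    ∀ᶠ T : ℝ in atTop, ∀ H V : ℝ, T ≤ H → 0 ≤ V → H + V ≤ 2 * T → ∀ k : ℕ, 1 ≤ k →
      (k ≤ ⌊T ^ (d - x₂ - δ)⌋₊ ∨ ⌊T ^ (d - x₁ + δ)⌋₊ < k) →
      ∀ ξ ∈ Icc (x₁ * Real.log T) (x₂ * Real.log T),
        Je β d B η H V (Real.log k + ξ) ≤
          V * Real.exp (-(β ^ 2 * δ ^ 2 / 16 * Real.log T ^ 2)) := by
  obtain ⟨C₀, hC₀⟩ : ∃ C₀ : ℝ, C₀ = d + |B| + |η| + d := ⟨_, rfl⟩
  filter_upwards [eventually_ge_atTop (1 : ℝ),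
    Real.tendsto_log_atTop.eventually_ge_atTop (2 * C₀ / δ),
    Real.tendsto_log_atTop.eventually_ge_atTop 1] with T hT hL hL1
  intro H V hH hV hHV k hk hfar ξ hξ
  have hT0 : 0 < T := by linarith
  have hk0 : (0 : ℝ) < k := by exact_mod_cast hk
  rw [div_le_iff₀ hδ] at hL
  refine Je_le β d B η H V _ _ (by linarith) hV fun u hu => ?_
  obtain ⟨h1, h2⟩ := cu_bounds2 d B η T u hd hT (hH.trans hu.1) (hu.2.trans hHV)
  rw [← hC₀] at h1 h2
  have h3 : δ * Real.log T / 2 ≤ |cu d B η u - (Real.log k + ξ)| := by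
    rcases hfar with h | h
    · have h4 : (k : ℝ) ≤ T ^ (d - x₂ - δ) := (Nat.le_floor_iff (by positivity)).1 h
      have h5 : Real.log k ≤ (d - x₂ - δ) * Real.log T := by
        rw [← Real.log_rpow hT0]
        exact Real.log_le_log hk0 h4
      refine le_trans ?_ (le_abs_self _)
      nlinarith [hξ.2]
    · have h4 : T ^ (d - x₁ + δ) < (k : ℝ) := Nat.lt_of_floor_lt h
      have h5 : (d - x₁ + δ) * Real.log T ≤ Real.log k := by
        rw [← Real.log_rpow hT0]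
        exact Real.log_le_log (by positivity) h4.le
      rw [abs_sub_comm]
      refine le_trans ?_ (le_abs_self _)
      nlinarith [hξ.1]
  rw [Real.exp_le_exp]
  have h6 : (δ * Real.log T / 2) ^ 2 ≤ (cu d B η u - (Real.log k + ξ)) ^ 2 := by
    rw [← sq_abs (cu d B η u - (Real.log k + ξ))]
    exact pow_le_pow_left₀ (by positivity) h3 2
  nlinarith [sq_nonneg β, mul_le_mul_of_nonneg_left h6 (sq_nonneg β),
    sq_nonneg (β * δ * Real.log T)]

/-- the frequencies in the window -/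
lemma Je_mid (β d B η x₁ x₂ δ : ℝ) (hβ : 0 < β) (hd : 0 < d) (hδ : 0 < δ) (hx : x₁ < x₂) :
    ∀ᶠ T : ℝ in atTop, ∀ H V : ℝ, T ≤ H → 0 ≤ V → H + V ≤ 2 * T → ∀ k : ℕ, 1 ≤ k →
      ⌊T ^ (d - x₂ + δ)⌋₊ < k → k ≤ ⌊T ^ (d - x₁ - δ)⌋₊ →
      V * (Real.sqrt (2 * Real.pi) / β - Real.exp (-(β ^ 2 * δ ^ 2 / 16 * Real.log T ^ 2)) *
        (2 * Real.sqrt Real.pi / β)) ≤
      ∫ ξ in (x₁ * Real.log T)..(x₂ * Real.log T), Je β d B η H V (Real.log k + ξ) := by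
  obtain ⟨C₀, hC₀⟩ : ∃ C₀ : ℝ, C₀ = d + |B| + |η| + d := ⟨_, rfl⟩
  filter_upwards [eventually_ge_atTop (1 : ℝ),
    Real.tendsto_log_atTop.eventually_ge_atTop (2 * C₀ / δ),
    Real.tendsto_log_atTop.eventually_ge_atTop 1] with T hT hL hL1
  intro H V hH hV hHV k hk h3 h4
  have hT0 : 0 < T := by linarith
  have hk0 : (0 : ℝ) < k := by exact_mod_cast hk
  rw [div_le_iff₀ hδ] at hL
  have h5 : T ^ (d - x₂ + δ) < (k : ℝ) := Nat.lt_of_floor_lt h3
  have h6 : (k : ℝ) ≤ T ^ (d - x₁ - δ) := (Nat.le_floor_iff (by positivity)).1 h4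
  have h7 : (d - x₂ + δ) * Real.log T ≤ Real.log k := by
    rw [← Real.log_rpow hT0]
    exact Real.log_le_log (by positivity) h5.le
  have h8 : Real.log k ≤ (d - x₁ - δ) * Real.log T := by
    rw [← Real.log_rpow hT0]
    exact Real.log_le_log hk0 h6
  have hle : x₁ * Real.log T ≤ x₂ * Real.log T :=
    mul_le_mul_of_nonneg_right hx.le (by linarith)
  have h9 := Je_int_ge β d B η H V (Real.log k) (x₁ * Real.log T) (x₂ * Real.log T)
    (δ * Real.log T / 2) hβ (by linarith) hV (by positivity) hle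
    (fun u hu => by
      obtain ⟨h1, h2⟩ := cu_bounds2 d B η T u hd hT (hH.trans hu.1) (hu.2.trans hHV)
      rw [← hC₀] at h1 h2
      nlinarith)
    (fun u hu => by
      obtain ⟨h1, h2⟩ := cu_bounds2 d B η T u hd hT (hH.trans hu.1) (hu.2.trans hHV)
      rw [← hC₀] at h1 h2
      nlinarith)
  rw [show β ^ 2 * (δ * Real.log T / 2) ^ 2 / 4 = β ^ 2 * δ ^ 2 / 16 * Real.log T ^ 2 by ring] at h9
  exact h9

end Pool.Agent.H14.RS
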